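import Pool.Agent.Helper93.KN.St

/-!
# Project KN (MP_77e955_nt), module FIRST: the first moment from the theorem of Bombieri and Vinogradov
-/

set_option autoImplicit false

noncomputable section

namespace Pool.Agent.Helper10.KN

open Finset ArithmeticFunction Pool.Agent.Helper93.KN
open Pool.Agent.Helper60.GP (IsB JJ II Err)

private lemma cop (a q b : ℕ) :
    IsCoprime (((a * (q * b) : ℕ) : ℤ) - 1) ((q ^ 2 * b : ℕ) : ℤ) := by
  have h : IsCoprime (((a * (q * b) : ℕ) : ℤ) - 1) ((q : ℤ) * b) := by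
    refine ⟨-1, a, ?_⟩
    push_cast
    ring
  have h1 := h.of_mul_right_left
  have e : ((q ^ 2 * b : ℕ) : ℤ) = (q : ℤ) * (q * b) := by push_cast; ring
  rw [e]
  exact h1.mul_right h

open Classical in
/-- the residue classes -/
private def cl (a q : ℕ) (Q : ℕ) : ℤ :=
  if IsCoprime (((a * (Q / q) : ℕ) : ℤ) - 1) (Q : ℤ) then ((a * (Q / q) : ℕ) : ℤ) - 1 else 1

private lemma cl_cop (a q Q : ℕ) : IsCoprime (cl a q Q) (Q : ℤ) := by
  unfold cl
  split_ifs with h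
  · exact h
  · exact isCoprime_one_left

private lemma cl_eq (a q b : ℕ) (hq : 1 ≤ q) :
    cl a q (q ^ 2 * b) = ((a * (q * b) : ℕ) : ℤ) - 1 := by
  have e : q ^ 2 * b / q = q * b := by
    rw [show q ^ 2 * b = q * (q * b) by ring]
    exact Nat.mul_div_cancel_left _ hq
  unfold cl
  rw [e]
  rw [if_pos (cop a q b)]

theorem hFirst (hBV : Pool.Agent.Helper60.GP.StBVc) (hPNT : Pool.Agent.Helper60.GP.StPNT) :
    StFirst := by
  intro ω hω hJ β hβ0 hβ q a hq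
  obtain ⟨x1, h1⟩ := hBV ω hω 1 β hβ
  obtain ⟨x2, h2⟩ := hPNT ω hω (JJ ω / 2) (by positivity)
  have hq0 : (0 : ℝ) < q := by exact_mod_cast hq
  refine ⟨JJ ω / (8 * q ^ 2), max (max x1 x2) (Real.exp (8 * q ^ 2 / JJ ω)), by positivity, ?_⟩
  intro x hx B hB hBx
  have hx1 : x1 ≤ x := le_trans (le_trans (le_max_left _ _) (le_max_left _ _)) hx
  have hx2 : x2 ≤ x := le_trans (le_trans (le_max_right _ _) (le_max_left _ _)) hx
  have hx3 : Real.exp (8 * q ^ 2 / JJ ω) ≤ x := le_trans (le_max_right _ _) hx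
  have hx0 : 0 < x := lt_of_lt_of_le (Real.exp_pos _) hx3
  have hlog : 8 * q ^ 2 / JJ ω ≤ Real.log x := (Real.le_log_iff_exp_le hx0).2 hx3
  have hlog0 : 0 < Real.log x := lt_of_lt_of_le (by positivity) hlog
  have hB0 : (0 : ℝ) < B := by exact_mod_cast hB
  -- the main term
  have hT : JJ ω / 2 * x ≤ Pool.Agent.Helper15.AB.Th ω x := by
    have := (abs_le.1 (h2 x hx2)).1
    linarith
  have hT0 : 0 ≤ Pool.Agent.Helper15.AB.Th ω x := le_trans (by positivity) hT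
  -- the errors
  have hE : ∑ b ∈ Ioc B (2 * B), Err ω x (q ^ 2 * b) (((a * (q * b) : ℕ) : ℤ) - 1) ≤
      x / Real.log x := by
    have h3 := h1 x hx1 (cl a q) (fun Q _ => cl_cop a q Q)
    rw [pow_one] at h3
    refine le_trans ?_ h3
    have hinj : Set.InjOn (fun b : ℕ => q ^ 2 * b) (Ioc B (2 * B) : Finset ℕ) := by
      intro u _ v _ huv
      have h4 : 0 < q ^ 2 := by positivity
      exact Nat.eq_of_mul_eq_mul_left h4 huv
    have h5 : ∑ b ∈ Ioc B (2 * B), Err ω x (q ^ 2 * b) (((a * (q * b) : ℕ) : ℤ) - 1) =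
        ∑ Q ∈ (Ioc B (2 * B)).image (fun b : ℕ => q ^ 2 * b), Err ω x Q (cl a q Q) := by
      rw [Finset.sum_image hinj]
      refine Finset.sum_congr rfl fun b _ => ?_
      rw [cl_eq a q b hq]
    rw [h5]
    refine Finset.sum_le_sum_of_subset_of_nonneg ?_ (fun _ _ _ => abs_nonneg _)
    intro Q hQ
    obtain ⟨b, hb, rfl⟩ := Finset.mem_image.1 hQ
    rw [Finset.mem_Ioc] at hb
    rw [Finset.mem_Icc]
    constructor
    · have h6 : 0 < q ^ 2 * b := Nat.mul_pos (by positivity) (by omega)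
      exact h6
    · apply Nat.le_floor
      refine le_trans ?_ hBx
      exact_mod_cast Nat.mul_le_mul_left _ hb.2
  -- each inner sum
  have hS : ∀ b ∈ Ioc B (2 * B), Pool.Agent.Helper15.AB.Th ω x / (2 * q ^ 2 * B) -
      Err ω x (q ^ 2 * b) (((a * (q * b) : ℕ) : ℤ) - 1) ≤
      ∑ n ∈ (II x).filter (fun n : ℕ =>
      ((q ^ 2 * b : ℕ) : ℤ) ∣ (n : ℤ) - ((a * (q * b) : ℕ) - 1 : ℤ)),
        Λ n * ω (Real.log (n / x)) := by
    intro b hb
    rw [Finset.mem_Ioc] at hb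
    have h6 : 0 < q ^ 2 * b := Nat.mul_pos (by positivity) (by omega)
    have h7 : (0 : ℝ) < Nat.totient (q ^ 2 * b) := by exact_mod_cast Nat.totient_pos.2 h6
    have h8 : (Nat.totient (q ^ 2 * b) : ℝ) ≤ 2 * q ^ 2 * B := by
      have h9 : Nat.totient (q ^ 2 * b) ≤ q ^ 2 * (2 * B) :=
        le_trans (Nat.totient_le _) (Nat.mul_le_mul_left _ hb.2)
      have h10 : (Nat.totient (q ^ 2 * b) : ℝ) ≤ ((q ^ 2 * (2 * B) : ℕ) : ℝ) := by
        exact_mod_cast h9
      refine le_trans h10 (le_of_eq ?_)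
      push_cast
      ring
    have h9 : Pool.Agent.Helper15.AB.Th ω x / (2 * q ^ 2 * B) ≤
        Pool.Agent.Helper15.AB.Th ω x / Nat.totient (q ^ 2 * b) :=
      div_le_div_of_nonneg_left hT0 h7 h8
    have h10 := neg_abs_le ((∑ n ∈ (II x).filter (fun n : ℕ =>
      ((q ^ 2 * b : ℕ) : ℤ) ∣ (n : ℤ) - ((a * (q * b) : ℕ) - 1 : ℤ)),
        Λ n * ω (Real.log (n / x))) - Pool.Agent.Helper15.AB.Th ω x / Nat.totient (q ^ 2 * b))
    have h11 : Err ω x (q ^ 2 * b) (((a * (q * b) : ℕ) : ℤ) - 1) =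
      |(∑ n ∈ (II x).filter (fun n : ℕ =>
      ((q ^ 2 * b : ℕ) : ℤ) ∣ (n : ℤ) - ((a * (q * b) : ℕ) - 1 : ℤ)),
        Λ n * ω (Real.log (n / x))) - Pool.Agent.Helper15.AB.Th ω x / Nat.totient (q ^ 2 * b)| :=
      rfl
    rw [← h11] at h10
    linarith
  refine le_trans ?_ (Finset.sum_le_sum hS)
  rw [Finset.sum_sub_distrib, Finset.sum_const, Nat.card_Ioc, nsmul_eq_mul]
  have hc : ((2 * B - B : ℕ) : ℝ) = B := by
    congr 1
    omega
  rw [hc]
  have h12 : (B : ℝ) * (Pool.Agent.Helper15.AB.Th ω x / (2 * q ^ 2 * B)) =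
      Pool.Agent.Helper15.AB.Th ω x / (2 * q ^ 2) := by
    field_simp
  rw [h12]
  have h13 : JJ ω / (4 * q ^ 2) * x ≤ Pool.Agent.Helper15.AB.Th ω x / (2 * q ^ 2) := by
    rw [le_div_iff₀ (by positivity)]
    calc JJ ω / (4 * q ^ 2) * x * (2 * q ^ 2) = JJ ω / 2 * x := by field_simp; ring
      _ ≤ _ := hT
  have h14 : x / Real.log x ≤ JJ ω / (8 * q ^ 2) * x := by
    rw [div_le_iff₀ hlog0]
    rw [div_le_iff₀ hJ] at hlog
    have h15 : 1 ≤ JJ ω / (8 * q ^ 2) * Real.log x := by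
      rw [div_mul_eq_mul_div, le_div_iff₀ (by positivity)]
      linarith
    nlinarith
  have h16 : JJ ω / (4 * q ^ 2) * x = JJ ω / (8 * q ^ 2) * x + JJ ω / (8 * q ^ 2) * x := by
    field_simp
    ring
  linarith

end Pool.Agent.Helper10.KN
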